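import Pool.Agent.V11279.OC.T

/-!
# Orderable soluble groups of derived length three

A linearly orderable group of derived length exactly `3` has at least two normal relatively convex
subgroups different from `1` and the whole group. So there is no such group with exactly one.
-/

set_option autoImplicit false

namespace Pool.Agent.Results.MP_b7123c_al.AtLeastTwo

open Pool.Agent.V11279.OC
open scoped commutatorElement

universe u

/-- `r` is a total order on the group `G`, invariant under multiplication on both sides. -/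
structure IsBiOrder {G : Type u} [Group G] (r : G → G → Prop) : Prop where
  refl : ∀ a, r a a
  trans : ∀ a b c, r a b → r b c → r a c
  antisymm : ∀ a b, r a b → r b a → a = b
  total : ∀ a b, r a b ∨ r b a
  mul_left : ∀ a b c, r a b → r (c * a) (c * b)
  mul_right : ∀ a b c, r a b → r (a * c) (b * c)

/-- `G` admits a total order invariant under multiplication on both sides. -/
def LinearlyOrderable (G : Type u) [Group G] : Prop := ∃ r : G → G → Prop, IsBiOrder r

/-- `H` is convex for at least one two-sided invariant total order of `G`. -/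
def RelativelyConvex {G : Type u} [Group G] (H : Subgroup G) : Prop :=
  ∃ r : G → G → Prop, IsBiOrder r ∧
    ∀ h₁ ∈ H, ∀ h₂ ∈ H, ∀ g : G, r h₁ g → r g h₂ → g ∈ H

section

variable {G : Type u} [Group G]

lemma relCone_of_convex {H : Subgroup G} (hH : H.Normal) {r : G → G → Prop} (hr : IsBiOrder r)
    (hc : ∀ h₁ ∈ H, ∀ h₂ ∈ H, ∀ g : G, r h₁ g → r g h₂ → g ∈ H) :
    RelCone H {x | r 1 x ∧ x ∉ H} where
  mul := by
    rintro a ⟨ha, ha'⟩ b ⟨hb, hb'⟩
    have h1 : r a (a * b) := by
      have := hr.mul_left _ _ a hb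
      rwa [mul_one] at this
    refine ⟨hr.trans _ _ _ ha h1, fun hab => ha' ?_⟩
    exact hc 1 H.one_mem _ hab a ha h1
  conj := by
    rintro a ⟨ha, ha'⟩ g
    refine ⟨?_, fun h => ha' ?_⟩
    · have := hr.mul_right _ _ g⁻¹ (hr.mul_left _ _ g ha)
      rwa [mul_one, mul_inv_cancel] at this
    · have := hH.conj_mem _ h g⁻¹
      rwa [show g⁻¹ * (g * a * g⁻¹) * g⁻¹⁻¹ = a by group] at this
  tri := by
    intro a
    by_cases ha : a ∈ H
    · exact Or.inl ha
    · right
      rcases hr.total 1 a with h | h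
      · left; exact ⟨h, ha⟩
      · right
        refine ⟨?_, fun h' => ha (by simpa using H.inv_mem h')⟩
        have := hr.mul_left _ _ a⁻¹ h
        rwa [inv_mul_cancel, mul_one] at this
  asym := by
    rintro a ⟨ha, ha'⟩ ⟨hb, hb'⟩
    have : r a 1 := by
      have := hr.mul_left _ _ a hb
      rwa [mul_one, mul_inv_cancel] at this
    have h1 := hr.antisymm _ _ ha this
    exact ha' (h1 ▸ H.one_mem)
  nmem := fun a ha => ha.2

lemma isBiOrder_of_cone {P : Set G} (hP : RelCone (⊥ : Subgroup G) P) :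
    IsBiOrder (fun a b : G => a = b ∨ a⁻¹ * b ∈ P) where
  refl a := Or.inl rfl
  trans a b c := by
    rintro (rfl | h1) (rfl | h2)
    · exact Or.inl rfl
    · exact Or.inr h2
    · exact Or.inr h1
    · right
      have := hP.mul _ h1 _ h2
      rwa [show a⁻¹ * b * (b⁻¹ * c) = a⁻¹ * c by group] at this
  antisymm a b := by
    rintro (rfl | h1) (h2 | h2)
    · rfl
    · rfl
    · exact h2.symm
    · exfalso
      apply hP.asym _ h1
      rwa [show (a⁻¹ * b)⁻¹ = b⁻¹ * a by group]
  total a b := by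
    rcases hP.tri (a⁻¹ * b) with h | h | h
    · left; left
      rw [Subgroup.mem_bot, inv_mul_eq_one] at h
      exact h
    · left; right; exact h
    · right; right
      rwa [show (a⁻¹ * b)⁻¹ = b⁻¹ * a by group] at h
  mul_left a b c := by
    rintro (rfl | h)
    · exact Or.inl rfl
    · right
      rwa [show (c * a)⁻¹ * (c * b) = a⁻¹ * b by group]
  mul_right a b c := by
    rintro (rfl | h)
    · exact Or.inl rfl
    · right
      have := hP.conj _ h c⁻¹
      rwa [show c⁻¹ * (a⁻¹ * b) * c⁻¹⁻¹ = (a * c)⁻¹ * (b * c) by group] at this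

lemma relConvex_of_cone {K : Subgroup G} [hKn : K.Normal] {P P0 : Set G}
    (h0 : RelCone (⊥ : Subgroup G) P0) (hP : RelCone K P) : RelativelyConvex K := by
  have hcross : ∀ p ∈ K, ∀ q ∈ P, p * q ∈ P ∧ q * p ∈ P := by
    intro p hp q hq
    have hqn := hP.nmem q hq
    constructor
    · rcases hP.tri (p * q) with h | h | h
      · exact absurd ((K.mul_mem_cancel_left hp).1 h) hqn
      · exact h
      · exfalso
        have := hP.mul _ hq _ h
        rw [mul_inv_rev, mul_inv_cancel_left] at this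
        exact hP.nmem _ this (K.inv_mem hp)
    · rcases hP.tri (q * p) with h | h | h
      · exact absurd ((K.mul_mem_cancel_right hp).1 h) hqn
      · exact h
      · exfalso
        have := hP.mul _ h _ hq
        rw [mul_inv_rev, inv_mul_cancel_right] at this
        exact hP.nmem _ this (K.inv_mem hp)
  have hcone : RelCone (⊥ : Subgroup G) {x | x ∈ P ∨ (x ∈ K ∧ x ∈ P0)} := by
    refine ⟨?_, ?_, ?_, ?_, ?_⟩
    · rintro a (ha | ⟨ha, ha'⟩) b (hb | ⟨hb, hb'⟩)
      · exact Or.inl (hP.mul a ha b hb)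
      · exact Or.inl (hcross b hb a ha).2
      · exact Or.inl (hcross a ha b hb).1
      · exact Or.inr ⟨K.mul_mem ha hb, h0.mul a ha' b hb'⟩
    · rintro a (ha | ⟨ha, ha'⟩) g
      · exact Or.inl (hP.conj a ha g)
      · exact Or.inr ⟨hKn.conj_mem a ha g, h0.conj a ha' g⟩
    · intro a
      rcases hP.tri a with h | h | h
      · rcases h0.tri a with h1 | h1 | h1
        · exact Or.inl h1
        · exact Or.inr (Or.inl (Or.inr ⟨h, h1⟩))
        · exact Or.inr (Or.inr (Or.inr ⟨K.inv_mem h, h1⟩))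
      · exact Or.inr (Or.inl (Or.inl h))
      · exact Or.inr (Or.inr (Or.inl h))
    · rintro a (ha | ⟨ha, ha'⟩) (hb | ⟨hb, hb'⟩)
      · exact hP.asym a ha hb
      · exact hP.nmem a ha (by simpa using K.inv_mem hb)
      · exact hP.nmem _ hb (K.inv_mem ha)
      · exact h0.asym a ha' hb'
    · rintro a (ha | ⟨ha, ha'⟩) h
      · rw [Subgroup.mem_bot] at h
        exact hP.nmem a ha (h ▸ K.one_mem)
      · exact h0.nmem a ha' h
  refine ⟨_, isBiOrder_of_cone hcone, ?_⟩
  intro h₁ hh₁ h₂ hh₂ g hg₁ hg₂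
  by_contra hg
  rcases hg₁ with rfl | (h | ⟨h, -⟩)
  · exact hg hh₁
  · rcases hg₂ with rfl | (h' | ⟨h', -⟩)
    · exact hg hh₂
    · have := hP.mul _ h _ h'
      refine hP.nmem _ this ?_
      rw [show h₁⁻¹ * g * (g⁻¹ * h₂) = h₁⁻¹ * h₂ by group]
      exact K.mul_mem (K.inv_mem hh₁) hh₂
    · have := (K.mul_mem_cancel_right hh₂).1 h'
      exact hg (by simpa using K.inv_mem this)
  · exact hg ((K.mul_mem_cancel_left (K.inv_mem hh₁)).1 h)

/-- the theorem for one subgroup, stated for a cone -/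
lemma derived_length_cone (P0 : Set G) (h0 : RelCone (⊥ : Subgroup G) P0) (H : Subgroup G)
    [hHn : H.Normal] (PH : Set G) (hPH : RelCone H PH)
    (hU : ∀ K : Subgroup G, K.Normal → (∃ P, RelCone K P) → K = ⊥ ∨ K = H ∨ K = ⊤)
    (hG : ∀ g k : G, ⁅g, k⁆ ∈ H) (h3 : derivedSeries G 3 = ⊥) : derivedSeries G 2 = ⊥ := by
  classical
  have hb := isBiOrder_of_cone h0
  letI : LinearOrder G :=
    { le := fun a b => a = b ∨ a⁻¹ * b ∈ P0
      le_refl := hb.refl
      le_trans := hb.trans
      le_antisymm := hb.antisymm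
      le_total := hb.total
      toDecidableLE := Classical.decRel _ }
  haveI : MulLeftMono G := ⟨fun c a b h => hb.mul_left a b c h⟩
  haveI : MulRightMono G := ⟨fun c a b h => hb.mul_right a b c h⟩
  exact derived_length H PH hPH hU hG h3

lemma comm_one_of_pow_cone (P0 : Set G) (h0 : RelCone (⊥ : Subgroup G) P0) {x y : G} {n : ℕ}
    (h : ⁅x ^ (n + 1), y⁆ = 1) : ⁅x, y⁆ = 1 := by
  classical
  have hb := isBiOrder_of_cone h0
  letI : LinearOrder G :=
    { le := fun a b => a = b ∨ a⁻¹ * b ∈ P0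
      le_refl := hb.refl
      le_trans := hb.trans
      le_antisymm := hb.antisymm
      le_total := hb.total
      toDecidableLE := Classical.decRel _ }
  haveI : MulLeftMono G := ⟨fun c a b h => hb.mul_left a b c h⟩
  haveI : MulRightMono G := ⟨fun c a b h => hb.mul_right a b c h⟩
  exact comm_one_of_pow h

lemma relCone_top : RelCone (⊤ : Subgroup G) (∅ : Set G) :=
  ⟨by simp, by simp, fun a => Or.inl (Subgroup.mem_top a), by simp, by simp⟩

/-- an orderable soluble group of derived length at most three without proper normal relatively convex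
subgroups is abelian -/
lemma abelian_of_simple (P0 : Set G) (h0 : RelCone (⊥ : Subgroup G) P0)
    (hU : ∀ K : Subgroup G, K.Normal → (∃ P, RelCone K P) → K = ⊥ ∨ K = ⊤)
    (h3 : derivedSeries G 3 = ⊥) : ∀ g k : G, ⁅g, k⁆ = 1 := by
  have h2 : derivedSeries G 2 = ⊥ := by
    refine derived_length_cone P0 h0 ⊤ ∅ relCone_top ?_ (fun g k => Subgroup.mem_top _) h3
    intro K hK hP
    rcases hU K hK hP with h | h
    · exact Or.inl h
    · exact Or.inr (Or.inr h)
  have hcm1 : ∀ g k : G, ⁅g, k⁆ ∈ derivedSeries G 1 := by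
    intro g k
    rw [derivedSeries_succ]
    exact Subgroup.commutator_mem_commutator (by simp) (by simp)
  by_cases hM : derivedSeries G 1 = ⊥
  · intro g k
    have := hcm1 g k
    rwa [hM, Subgroup.mem_bot] at this
  obtain ⟨K, hKn, hLK, -, hKP, hKa⟩ := pos_rel (H := (⊤ : Subgroup G)) (L := derivedSeries G 1)
    le_top (fun h _ k _ => hcm1 h k) (fun g k => Subgroup.mem_top _) ∅ relCone_top
  have hK : K = ⊤ := by
    rcases hU K hKn hKP with h | h
    · exact absurd (le_antisymm (h ▸ hLK) bot_le) hM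
    · exact h
  have hcm : ∀ p q : G ⧸ derivedSeries G 1, p * q = q * p := by
    intro p q
    obtain ⟨p, rfl⟩ := QuotientGroup.mk'_surjective _ p
    obtain ⟨q, rfl⟩ := QuotientGroup.mk'_surjective _ q
    rw [← map_mul, ← map_mul]
    refine (QuotientGroup.eq.2 ?_)
    have := hcm1 q⁻¹ p⁻¹
    rw [commutatorElement_def] at this
    rwa [show (p * q)⁻¹ * (q * p) = q⁻¹ * p⁻¹ * q⁻¹⁻¹ * p⁻¹⁻¹ by group]
  have hpw : ∀ a : G ⧸ derivedSeries G 1 → G ⧸ derivedSeries G 1, Nu a →
      ∃ n : ℕ, ∀ v, a v = v ^ (n + 1) := by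
    intro a ha
    induction ha with
    | base g => exact ⟨0, fun v => by
        show g * v * g⁻¹ = v ^ (0 + 1)
        rw [hcm g v]; group⟩
    | add a b _ _ iha ihb =>
      obtain ⟨n, hn⟩ := iha
      obtain ⟨k, hk⟩ := ihb
      exact ⟨n + 1 + k, fun v => by
        show a v * b v = _
        rw [hn, hk, ← pow_add]; rfl⟩
  have hp : ∀ h : G, ∃ n : ℕ, h ^ (n + 1) ∈ derivedSeries G 1 := by
    intro h
    obtain ⟨a, ha, e⟩ := hKa h (hK ▸ Subgroup.mem_top h)
    obtain ⟨n, hn⟩ := hpw a ha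
    refine ⟨n, ?_⟩
    rw [hn, ← map_pow] at e
    exact (QuotientGroup.eq_one_iff _).1 e
  intro g k
  obtain ⟨n, hn⟩ := hp g
  obtain ⟨m, hm⟩ := hp k
  have h4 : ⁅k ^ (m + 1), g ^ (n + 1)⁆ = 1 := by
    have h5 : ⁅k ^ (m + 1), g ^ (n + 1)⁆ ∈ derivedSeries G 2 := by
      rw [derivedSeries_succ]
      exact Subgroup.commutator_mem_commutator hm hn
    rwa [h2, Subgroup.mem_bot] at h5
  have h5 := comm_one_of_pow_cone P0 h0 h4
  rw [commutatorElement_eq_one_iff_mul_comm] at h5
  have h6 : ⁅g ^ (n + 1), k⁆ = 1 := commutatorElement_eq_one_iff_mul_comm.2 h5.symm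
  exact comm_one_of_pow_cone P0 h0 h6

end

/-- **At least two.** A linearly orderable group `G` with `G''' = 1 ≠ G''` has at least two normal
relatively convex subgroups different from `1` and `G`. -/
theorem result (G : Type u) [Group G] (hG : LinearlyOrderable G) (h3 : derivedSeries G 3 = ⊥)
    (h2 : derivedSeries G 2 ≠ ⊥) :
    ∃ H K : Subgroup G, H ≠ K ∧ (H.Normal ∧ RelativelyConvex H ∧ H ≠ ⊥ ∧ H ≠ ⊤) ∧
      (K.Normal ∧ RelativelyConvex K ∧ K ≠ ⊥ ∧ K ≠ ⊤) := by
  by_contra hcon
  push Not at hcon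
  obtain ⟨r0, hr0⟩ := hG
  have h0 : RelCone (⊥ : Subgroup G) {x | r0 1 x ∧ x ∉ (⊥ : Subgroup G)} := by
    refine relCone_of_convex inferInstance hr0 ?_
    intro a ha b hb g h1 h2
    rw [Subgroup.mem_bot] at *
    subst ha
    subst hb
    exact hr0.antisymm _ _ h2 h1
  have hone : ∀ H K : Subgroup G, (H.Normal ∧ RelativelyConvex H ∧ H ≠ ⊥ ∧ H ≠ ⊤) →
      (K.Normal ∧ RelativelyConvex K ∧ K ≠ ⊥ ∧ K ≠ ⊤) → H = K := by
    rintro H K h1 ⟨k1, k2, k3, k4⟩
    by_contra h5
    exact k4 (hcon H K h5 h1 k1 k2 k3)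
  have hRC : ∀ K : Subgroup G, K.Normal → (∃ P, RelCone K P) → RelativelyConvex K := by
    rintro K hK ⟨P, hP⟩
    exact relConvex_of_cone h0 hP
  by_cases hex : ∃ N : Subgroup G, N.Normal ∧ RelativelyConvex N ∧ N ≠ ⊥ ∧ N ≠ ⊤
  · obtain ⟨N, hN⟩ := hex
    have hNn : N.Normal := hN.1
    have hU : ∀ K : Subgroup G, K.Normal → (∃ P, RelCone K P) → K = ⊥ ∨ K = N ∨ K = ⊤ := by
      intro K hK hP
      by_cases h1 : K = ⊥
      · exact Or.inl h1
      by_cases h4 : K = ⊤
      · exact Or.inr (Or.inr h4)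
      exact Or.inr (Or.inl (hone K N ⟨hK, hRC K hK hP, h1, h4⟩ hN))
    obtain ⟨r, hr, hc⟩ := hN.2.1
    have hPN := relCone_of_convex hNn hr hc
    -- the quotient is abelian
    have hbotq : N.map (QuotientGroup.mk' N) = ⊥ := by
      rw [eq_bot_iff]
      rintro _ ⟨a, ha, rfl⟩
      rw [Subgroup.mem_bot]
      exact (QuotientGroup.eq_one_iff a).2 ha
    have hcq := hPN.map (le_refl N)
    rw [hbotq] at hcq
    have hq3 : derivedSeries (G ⧸ N) 3 = ⊥ := by
      have h5 := map_derivedSeries_eq (QuotientGroup.mk'_surjective N) 3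
      rw [h3, Subgroup.map_bot] at h5
      exact h5.symm
    have hUq : ∀ K : Subgroup (G ⧸ N), K.Normal → (∃ P, RelCone K P) → K = ⊥ ∨ K = ⊤ := by
      rintro K hK ⟨P, hP⟩
      have hNK : N ≤ K.comap (QuotientGroup.mk' N) := by
        intro x hx
        rw [Subgroup.mem_comap, show (QuotientGroup.mk' N) x = 1 from (QuotientGroup.eq_one_iff x).2 hx]
        exact K.one_mem
      have hback : K = (K.comap (QuotientGroup.mk' N)).map (QuotientGroup.mk' N) :=
        (Subgroup.map_comap_eq_self_of_surjective (QuotientGroup.mk'_surjective N) K).symm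
      rcases hU _ (hK.comap _) ⟨_, hP.comap (QuotientGroup.mk' N)⟩ with h | h | h
      · exfalso
        rw [h] at hNK
        exact hN.2.2.1 (le_antisymm hNK bot_le)
      · left
        rw [hback, h, hbotq]
      · right
        rw [hback, h, ← MonoidHom.range_eq_map]
        exact MonoidHom.range_eq_top.2 (QuotientGroup.mk'_surjective N)
    have hab := abelian_of_simple _ hcq hUq hq3
    have hGN : ∀ g k : G, ⁅g, k⁆ ∈ N := by
      intro g k
      have h5 := hab (QuotientGroup.mk' N g) (QuotientGroup.mk' N k)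
      rw [← map_commutatorElement] at h5
      exact (QuotientGroup.eq_one_iff _).1 h5
    exact h2 (derived_length_cone _ h0 N _ hPN hU hGN h3)
  · push Not at hex
    have hU : ∀ K : Subgroup G, K.Normal → (∃ P, RelCone K P) → K = ⊥ ∨ K = ⊤ ∨ K = ⊤ := by
      intro K hK hP
      by_cases h1 : K = ⊥
      · exact Or.inl h1
      · exact Or.inr (Or.inl (hex K hK (hRC K hK hP) h1))
    exact h2 (derived_length_cone _ h0 ⊤ ∅ relCone_top hU (fun g k => Subgroup.mem_top _) h3)

end Pool.Agent.Results.MP_b7123c_al.AtLeastTwo
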